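import Pool.Agent.helper68.BD2.Spec

/-!
# Project BD2 (MP_4467b5_nt), row CPC: choice of the power
-/

set_option autoImplicit false

namespace Pool.Agent.BEY

open Pool.Agent.helper84.DM Pool.Agent.helper78.ED Pool.Agent.DH Pool.Agent.LDH

theorem CPC : CPC_stmt := by
  intro δ hδ hδ1
  refine ⟨(2 : ℝ) ^ (2 / δ), ?_⟩
  intro T A hT hA1 hA2 N hN1 hN2
  have h2δ : 0 < 2 / δ := by positivity
  have hT2 : (1 : ℝ) < (2 : ℝ) ^ (2 / δ) := Real.one_lt_rpow (by norm_num) h2δ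
  have hT1 : 1 < T := lt_of_lt_of_le hT2 hT
  have hT0 : 0 < T := by linarith
  have hA0 : 0 < A := by linarith
  have hTh : (2 : ℝ) ≤ T ^ (δ / 2) := by
    have h1 : ((2 : ℝ) ^ (2 / δ)) ^ (δ / 2) ≤ T ^ (δ / 2) :=
      Real.rpow_le_rpow (by positivity) hT (by positivity)
    rw [← Real.rpow_mul (by norm_num)] at h1
    have h3 : 2 / δ * (δ / 2) = 1 := by field_simp
    rw [h3, Real.rpow_one] at h1
    exact h1
  have hTd : T ^ δ = T ^ (δ / 2) * T ^ (δ / 2) := by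
    rw [← Real.rpow_add hT0]
    congr 1
    ring
  have hNh : T ^ (δ / 2) ≤ (N : ℝ) := by
    refine le_trans ?_ hN1
    rw [hTd]
    nlinarith [hTh]
  have hN2' : (2 : ℝ) ≤ (N : ℝ) := le_trans hTh hNh
  have hN0 : (0 : ℝ) < N := by linarith
  have hT4 : (4 : ℝ) ≤ T ^ δ := by rw [hTd]; nlinarith
  set H : ℝ := T ^ (A / 2 + 3 * δ) with hH
  have hH0 : 0 < H := Real.rpow_pos_of_pos hT0 _
  have hH1 : 1 ≤ H := Real.one_le_rpow hT1.le (by positivity)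
  have hNN : (N : ℝ) ^ 2 ≤ H := by
    have h1 : (N : ℝ) ^ 2 ≤ (2 * T ^ (A / 4 + δ)) ^ 2 :=
      pow_le_pow_left₀ hN0.le hN2 2
    have h2 : (2 * T ^ (A / 4 + δ)) ^ 2 = 4 * T ^ (A / 2 + 2 * δ) := by
      have h3 : A / 2 + 2 * δ = (A / 4 + δ) + (A / 4 + δ) := by ring
      rw [h3, Real.rpow_add hT0 (A / 4 + δ) (A / 4 + δ)]
      ring
    have h4 : H = T ^ δ * T ^ (A / 2 + 2 * δ) := by
      rw [hH, ← Real.rpow_add hT0]
      congr 1
      ring
    rw [h2] at h1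
    rw [h4]
    exact h1.trans (mul_le_mul_of_nonneg_right hT4 (Real.rpow_nonneg hT0.le _))
  obtain ⟨k, hk1, hk2⟩ := exists_nat_pow_near hH1 (show (1 : ℝ) < (N : ℝ) by linarith)
  have hk : 2 ≤ k := by
    by_contra hcon
    push Not at hcon
    have h1 : (N : ℝ) ^ (k + 1) ≤ (N : ℝ) ^ 2 :=
      pow_le_pow_right₀ (by linarith) (by omega)
    linarith
  refine ⟨k, hk, ?_, ?_, hk1, ?_⟩
  · have h1 : T ^ (δ / 2 * (k : ℝ)) ≤ T ^ (2 : ℝ) := by
      rw [Real.rpow_mul hT0.le, Real.rpow_natCast]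
      calc (T ^ (δ / 2)) ^ k ≤ (N : ℝ) ^ k :=
            pow_le_pow_left₀ (by positivity) hNh k
        _ ≤ H := hk1
        _ ≤ T ^ (2 : ℝ) := Real.rpow_le_rpow_of_exponent_le hT1.le (by linarith)
    have h2 : δ / 2 * (k : ℝ) ≤ 2 := (Real.rpow_le_rpow_left_iff hT1).mp h1
    rw [le_div_iff₀ hδ]
    nlinarith
  · by_contra hcon
    push Not at hcon
    have h1 : ((N : ℝ) ^ k) ^ 3 < (T ^ (A / 3)) ^ 3 :=
      pow_lt_pow_left₀ hcon (by positivity) (by norm_num)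
    have h2 : (T ^ (A / 3)) ^ 3 ≤ H ^ 2 := by
      rw [← Real.rpow_natCast (T ^ (A / 3)) 3, ← Real.rpow_mul hT0.le,
        ← Real.rpow_natCast H 2, hH, ← Real.rpow_mul hT0.le]
      apply Real.rpow_le_rpow_of_exponent_le hT1.le
      push_cast
      nlinarith
    have h3 : H ^ 2 ≤ ((N : ℝ) ^ (k + 1)) ^ 2 := pow_le_pow_left₀ hH0.le hk2.le 2
    have h4 : ((N : ℝ) ^ (k + 1)) ^ 2 ≤ ((N : ℝ) ^ k) ^ 3 := by
      rw [← pow_mul, ← pow_mul]
      exact pow_le_pow_right₀ (by linarith) (by omega)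
    linarith
  · refine le_trans ?_ hk2.le
    exact Real.rpow_le_rpow_of_exponent_le hT1.le (by linarith)

end Pool.Agent.BEY
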